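import Pool.Agent.N287.WF.Stm

/-!
# WF/A2: a local basis of a closed family of discrete groups
-/

set_option autoImplicit false

open scoped Topology
open Set Filter

noncomputable section

namespace Pool.Agent.N603.WF

open Pool.Agent.N287.WF

universe v

theorem cramer (p q γ : ℝ × ℝ) (h : det2 p q ≠ 0) :
    γ = (det2 γ q / det2 p q) • p + (det2 p γ / det2 p q) • q := by
  ext
  · simp only [Prod.fst_add, Prod.smul_fst, smul_eq_mul]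
    rw [div_mul_eq_mul_div, div_mul_eq_mul_div, ← add_div, eq_div_iff h]
    unfold det2
    ring
  · simp only [Prod.snd_add, Prod.smul_snd, smul_eq_mul]
    rw [div_mul_eq_mul_div, div_mul_eq_mul_div, ← add_div, eq_div_iff h]
    unfold det2
    ring

/-- an element which is not a combination can be moved to the fundamental domain -/
theorem exists_st (Λ : AddSubgroup (ℝ × ℝ)) (p q γ : ℝ × ℝ) (h : det2 p q ≠ 0) (hp : p ∈ Λ)
    (hq : q ∈ Λ) (hγ : γ ∈ Λ) (hn : ∀ m n : ℤ, γ ≠ m • p + n • q) :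
    ∃ st : ℝ × ℝ, st ∈ Icc (0 : ℝ) 1 ×ˢ Icc (0 : ℝ) 1 ∧ st.1 • p + st.2 • q ∈ Λ ∧
      ∀ m n : ℤ, st.1 • p + st.2 • q ≠ m • p + n • q := by
  set s := det2 γ q / det2 p q with hs
  set t := det2 p γ / det2 p q with ht
  have hc : γ = s • p + t • q := cramer p q γ h
  have he : Int.fract s • p + Int.fract t • q = γ - (⌊s⌋ • p + ⌊t⌋ • q) := by
    rw [← Int.self_sub_floor, ← Int.self_sub_floor, sub_smul, sub_smul, Int.cast_smul_eq_zsmul,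
      Int.cast_smul_eq_zsmul]
    conv_rhs => rw [hc]
    abel
  refine ⟨(Int.fract s, Int.fract t), ⟨⟨Int.fract_nonneg _, (Int.fract_lt_one _).le⟩,
    ⟨Int.fract_nonneg _, (Int.fract_lt_one _).le⟩⟩, ?_, ?_⟩
  · change Int.fract s • p + Int.fract t • q ∈ Λ
    rw [he]
    exact Λ.sub_mem hγ (Λ.add_mem (Λ.zsmul_mem hp _) (Λ.zsmul_mem hq _))
  · intro m n hmn
    change Int.fract s • p + Int.fract t • q = _ at hmn
    rw [he] at hmn
    apply hn (m + ⌊s⌋) (n + ⌊t⌋)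
    rw [add_smul, add_smul]
    have := sub_eq_iff_eq_add.1 hmn
    rw [this]
    abel

theorem localBasis : LocalBasisStm.{v} := by
  intro M _ Λ hcl hdisc x₀ g₁ g₂ hs1 hs2 hdet hbas
  obtain ⟨ε, hε, hdisc⟩ := hdisc
  have c1 : ContinuousAt g₁ x₀ := hs1.self_of_nhds.1
  have c2 : ContinuousAt g₂ x₀ := hs2.self_of_nhds.1
  have cd : ContinuousAt (fun x => det2 (g₁ x) (g₂ x)) x₀ := by
    unfold det2
    exact (c1.fst.mul c2.snd).sub (c1.snd.mul c2.fst)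
  have hd : ∀ᶠ x in 𝓝 x₀, det2 (g₁ x) (g₂ x) ≠ 0 := cd.eventually_ne hdet
  refine hd.and ?_
  by_contra hcon
  rw [not_eventually] at hcon
  set S : Set M := {x | ¬ ∀ γ ∈ Λ x, ∃ m n : ℤ, γ = m • g₁ x + n • g₂ x} with hS
  have hne : (𝓝 x₀ ⊓ 𝓟 S).NeBot := frequently_mem_iff_neBot.1 hcon
  set F : Ultrafilter M := Ultrafilter.of (𝓝 x₀ ⊓ 𝓟 S) with hF
  have hFx : (F : Filter M) ≤ 𝓝 x₀ := (Ultrafilter.of_le _).trans inf_le_left
  have hFS : ∀ᶠ x in (F : Filter M), x ∈ S := by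
    have h1 : (F : Filter M) ≤ 𝓟 S := (Ultrafilter.of_le _).trans inf_le_right
    exact h1 (mem_principal_self S)
  have hex : ∀ x, ∃ st : ℝ × ℝ, (x ∈ S ∧ det2 (g₁ x) (g₂ x) ≠ 0 ∧ g₁ x ∈ Λ x ∧ g₂ x ∈ Λ x) →
      (st ∈ Icc (0 : ℝ) 1 ×ˢ Icc (0 : ℝ) 1 ∧ st.1 • g₁ x + st.2 • g₂ x ∈ Λ x ∧
      ∀ m n : ℤ, st.1 • g₁ x + st.2 • g₂ x ≠ m • g₁ x + n • g₂ x) := by
    intro x
    by_cases hx : x ∈ S ∧ det2 (g₁ x) (g₂ x) ≠ 0 ∧ g₁ x ∈ Λ x ∧ g₂ x ∈ Λ x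
    · obtain ⟨h1, h2, h3, h4⟩ := hx
      simp only [hS, mem_ofPred_eq, not_forall, not_exists] at h1
      obtain ⟨γ, hγ, hn⟩ := h1
      obtain ⟨st, hst⟩ := exists_st (Λ x) (g₁ x) (g₂ x) γ h2 h3 h4 hγ hn
      exact ⟨st, fun _ => hst⟩
    · exact ⟨0, fun h => absurd h hx⟩
  choose st hst using hex
  have hev : ∀ᶠ x in (F : Filter M), st x ∈ Icc (0 : ℝ) 1 ×ˢ Icc (0 : ℝ) 1 ∧
      (st x).1 • g₁ x + (st x).2 • g₂ x ∈ Λ x ∧
      ∀ m n : ℤ, (st x).1 • g₁ x + (st x).2 • g₂ x ≠ m • g₁ x + n • g₂ x := by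
    filter_upwards [hFS, hFx hd, hFx hs1, hFx hs2] with x h1 h2 h3 h4
    exact hst x ⟨h1, h2, h3.2, h4.2⟩
  have hK : IsCompact (Icc (0 : ℝ) 1 ×ˢ Icc (0 : ℝ) 1) := isCompact_Icc.prod isCompact_Icc
  obtain ⟨c, -, hc⟩ := hK.ultrafilter_le_nhds (F.map st) (by
    rw [le_principal_iff]
    exact (hev.mono fun x hx => hx.1))
  have hc' : Tendsto st (F : Filter M) (𝓝 c) := hc
  have t1 : Tendsto g₁ (F : Filter M) (𝓝 (g₁ x₀)) := c1.tendsto.mono_left hFx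
  have t2 : Tendsto g₂ (F : Filter M) (𝓝 (g₂ x₀)) := c2.tendsto.mono_left hFx
  have s1 : Tendsto (fun x => (st x).1) (F : Filter M) (𝓝 c.1) :=
    (continuous_fst.tendsto c).comp hc'
  have s2 : Tendsto (fun x => (st x).2) (F : Filter M) (𝓝 c.2) :=
    (continuous_snd.tendsto c).comp hc'
  have hh : Tendsto (fun x => (st x).1 • g₁ x + (st x).2 • g₂ x) (F : Filter M)
      (𝓝 (c.1 • g₁ x₀ + c.2 • g₂ x₀)) := (s1.smul t1).add (s2.smul t2)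
  have hmem : c.1 • g₁ x₀ + c.2 • g₂ x₀ ∈ Λ x₀ := by
    have h1 : Tendsto (fun x => (x, (st x).1 • g₁ x + (st x).2 • g₂ x)) (F : Filter M)
        (𝓝 (x₀, c.1 • g₁ x₀ + c.2 • g₂ x₀)) := by
      have h0 : Tendsto (fun x : M => x) (F : Filter M) (𝓝 x₀) := hFx
      exact h0.prodMk_nhds hh
    exact hcl.mem_of_tendsto h1 (hev.mono fun x hx => hx.2.1)
  obtain ⟨m, n, hmn⟩ := hbas _ hmem
  have hd0 : Tendsto (fun x => ((st x).1 • g₁ x + (st x).2 • g₂ x) - (m • g₁ x + n • g₂ x))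
      (F : Filter M) (𝓝 0) := by
    have h1 : Tendsto (fun x => m • g₁ x + n • g₂ x) (F : Filter M)
        (𝓝 (m • g₁ x₀ + n • g₂ x₀)) := (t1.const_smul m).add (t2.const_smul n)
    have h2 := hh.sub h1
    rwa [← hmn, sub_self] at h2
  have hsm : ∀ᶠ x in (F : Filter M),
      ‖((st x).1 • g₁ x + (st x).2 • g₂ x) - (m • g₁ x + n • g₂ x)‖ < ε := by
    have h1 := hd0.norm
    rw [norm_zero] at h1
    exact h1.eventually (gt_mem_nhds hε)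
  have e1 : ∀ᶠ x in (F : Filter M), ContinuousAt g₁ x ∧ g₁ x ∈ Λ x := hFx hs1
  have e2 : ∀ᶠ x in (F : Filter M), ContinuousAt g₂ x ∧ g₂ x ∈ Λ x := hFx hs2
  obtain ⟨x, ⟨h1, h2, h3⟩, h4, h5, h6⟩ := (hev.and (hsm.and (e1.and e2))).exists
  apply h3 m n
  have h7 := hdisc x _ ((Λ x).sub_mem h2 ((Λ x).add_mem ((Λ x).zsmul_mem h5.2 m)
    ((Λ x).zsmul_mem h6.2 n))) h4
  exact sub_eq_zero.1 h7

end Pool.Agent.N603.WF
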